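import Pool.Agent.W845.GL.Stm

set_option autoImplicit false

namespace Pool.Agent.W280.GL

open Pool.Agent.W845.GL
open Finset
open scoped Classical

theorem mem_Eg {k : ℕ} (F : SimpleGraph (Fin k)) (e : Fin k × Fin k) :
    e ∈ Eg F ↔ e.1 < e.2 ∧ F.Adj e.1 e.2 := by
  unfold Eg
  rw [Finset.mem_filter]
  exact ⟨fun h => h.2, fun h => ⟨Finset.mem_univ _, h⟩⟩

theorem Eg_Star (m : ℕ) :
    Eg (Star m) = Finset.univ.image (fun j : Fin m => ((0 : Fin (m + 1)), j.succ)) := by
  ext ⟨a, b⟩
  rw [mem_Eg, Finset.mem_image]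
  constructor
  · rintro ⟨hlt, hadj⟩
    have hlt' : a.val < b.val := hlt
    have h := (SimpleGraph.fromRel_adj _ _ _).mp hadj
    have h0 : a.val = 0 := by
      rcases h.2 with h1 | h1
      · exact h1.1
      · have h2 : b.val = 0 := h1.1
        omega
    have hb : 1 ≤ b.val := by omega
    refine ⟨⟨b.val - 1, by have := b.isLt; omega⟩, Finset.mem_univ _, ?_⟩
    apply Prod.ext
    · apply Fin.ext; exact h0.symm
    · apply Fin.ext; show b.val - 1 + 1 = b.val; omega
  · rintro ⟨j, _, hj⟩
    have h1 : a = 0 := (congrArg Prod.fst hj).symm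
    have h2 : b = j.succ := (congrArg Prod.snd hj).symm
    subst h1 h2
    refine ⟨Fin.succ_pos j, ?_⟩
    apply (SimpleGraph.fromRel_adj _ _ _).mpr
    refine ⟨(Fin.succ_ne_zero j).symm, Or.inl ⟨rfl, ?_⟩⟩
    show 1 ≤ j.val + 1
    omega

theorem prod_Star {X : Type} (W : X → X → ℝ) (m : ℕ) (x : Fin (m + 1) → X) :
    ∏ e ∈ Eg (Star m), W (x e.1) (x e.2) = ∏ j : Fin m, W (x 0) (x j.succ) := by
  rw [Eg_Star, Finset.prod_image]
  intro i _ j _ h
  exact Fin.succ_injective _ (congrArg Prod.snd h)

theorem sum_cons {X : Type} [Fintype X] (n : ℕ) (Φ : (Fin (n + 1) → X) → ℝ) :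
    ∑ x : Fin (n + 1) → X, Φ x = ∑ a : X, ∑ y : Fin n → X, Φ (Fin.cons a y) := by
  rw [← (Fin.consEquiv (fun _ : Fin (n + 1) => X)).sum_comp, Fintype.sum_prod_type]
  rfl

/-- which centre -/
def cen (l m : ℕ) (j : Fin (l + m)) : Fin (l + m + 2) := if j.val < l then 0 else 1

theorem Eg_DStar (l m : ℕ) :
    Eg (DStar l m) = insert ((0 : Fin (l + m + 2)), (1 : Fin (l + m + 2)))
      (Finset.univ.image (fun j : Fin (l + m) => (cen l m j, j.succ.succ))) := by
  ext ⟨a, b⟩
  rw [mem_Eg, Finset.mem_insert, Finset.mem_image]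
  constructor
  · rintro ⟨hlt, hadj⟩
    have hlt' : a.val < b.val := hlt
    have h := (SimpleGraph.fromRel_adj _ _ _).mp hadj
    have h3 : (a.val = 0 ∧ b.val = 1) ∨ (a.val = 0 ∧ 2 ≤ b.val ∧ b.val < l + 2) ∨ (a.val = 1 ∧ l + 2 ≤ b.val) := by
      rcases h.2 with h1 | h1
      · exact h1
      · rcases h1 with h2 | h2 | h2
        · have : b.val = 0 := h2.1
          omega
        · have : b.val = 0 := h2.1
          omega
        · have e1 : b.val = 1 := h2.1
          have e2 : l + 2 ≤ a.val := h2.2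
          omega
    rcases h3 with h4 | h4 | h4
    · left
      apply Prod.ext
      · apply Fin.ext; exact h4.1
      · apply Fin.ext; rw [h4.2]; rfl
    · right
      refine ⟨⟨b.val - 2, by have := b.isLt; omega⟩, Finset.mem_univ _, ?_⟩
      apply Prod.ext
      · show cen l m _ = a
        unfold cen
        rw [if_pos (by show b.val - 2 < l; omega)]
        apply Fin.ext; exact h4.1.symm
      · apply Fin.ext; show b.val - 2 + 1 + 1 = b.val; omega
    · right
      refine ⟨⟨b.val - 2, by have := b.isLt; omega⟩, Finset.mem_univ _, ?_⟩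
      apply Prod.ext
      · show cen l m _ = a
        unfold cen
        rw [if_neg (by show ¬ (b.val - 2 < l); omega)]
        apply Fin.ext; rw [h4.1]; rfl
      · apply Fin.ext; show b.val - 2 + 1 + 1 = b.val; omega
  · rintro (h | ⟨j, _, hj⟩)
    · have h1 : a = 0 := congrArg Prod.fst h
      have h2 : b = 1 := congrArg Prod.snd h
      subst h1 h2
      refine ⟨by show (0 : Fin (l + m + 2)).val < (1 : Fin (l + m + 2)).val; rw [Fin.val_zero, Fin.val_one]; omega, ?_⟩
      apply (SimpleGraph.fromRel_adj _ _ _).mpr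
      refine ⟨?_, Or.inl (Or.inl ⟨rfl, Fin.val_one _⟩)⟩
      intro h3
      have := congrArg Fin.val h3
      rw [Fin.val_zero, Fin.val_one] at this
      omega
    · have h1 : a = cen l m j := (congrArg Prod.fst hj).symm
      have h2 : b = j.succ.succ := (congrArg Prod.snd hj).symm
      have hb : b.val = j.val + 1 + 1 := by rw [h2]; rfl
      by_cases hjl : j.val < l
      · have ha : a.val = 0 := by rw [h1]; unfold cen; rw [if_pos hjl]; rfl
        refine ⟨by show a.val < b.val; omega, ?_⟩
        apply (SimpleGraph.fromRel_adj _ _ _).mpr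
        have hb2 : 2 ≤ b.val := by omega
        have hb3 : b.val < l + 2 := by omega
        refine ⟨?_, Or.inl (Or.inr (Or.inl ⟨ha, hb2, hb3⟩))⟩
        intro h3
        have h5 : a.val = b.val := congrArg Fin.val h3
        omega
      · have ha : a.val = 1 := by rw [h1]; unfold cen; rw [if_neg hjl]; exact Fin.val_one _
        refine ⟨by show a.val < b.val; omega, ?_⟩
        apply (SimpleGraph.fromRel_adj _ _ _).mpr
        have hb2 : l + 2 ≤ b.val := by omega
        refine ⟨?_, Or.inl (Or.inr (Or.inr ⟨ha, hb2⟩))⟩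
        intro h3
        have h5 : a.val = b.val := congrArg Fin.val h3
        omega

theorem prod_DStar {X : Type} (W : X → X → ℝ) (l m : ℕ) (a b : X) (y : Fin (l + m) → X) :
    ∏ e ∈ Eg (DStar l m), W ((Fin.cons a (Fin.cons b y : Fin (l + m + 1) → X) : Fin (l + m + 2) → X) e.1)
      ((Fin.cons a (Fin.cons b y : Fin (l + m + 1) → X) : Fin (l + m + 2) → X) e.2) =
      W a b * ∏ j : Fin (l + m), (if j.val < l then W a (y j) else W b (y j)) := by
  rw [Eg_DStar, Finset.prod_insert, Finset.prod_image]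
  · congr 1
    apply Finset.prod_congr rfl
    intro j _
    by_cases hj : j.val < l
    · rw [if_pos hj]
      show W ((Fin.cons a (Fin.cons b y : Fin (l + m + 1) → X) : Fin (l + m + 2) → X) (cen l m j)) (y j) = _
      unfold cen
      rw [if_pos hj]; rfl
    · rw [if_neg hj]
      show W ((Fin.cons a (Fin.cons b y : Fin (l + m + 1) → X) : Fin (l + m + 2) → X) (cen l m j)) (y j) = _
      unfold cen
      rw [if_neg hj]; rfl
  · intro i _ j _ h
    exact Fin.succ_injective _ (Fin.succ_injective _ (congrArg Prod.snd h))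
  · intro h
    obtain ⟨j, _, hj⟩ := Finset.mem_image.mp h
    have h2 : (j.succ.succ : Fin (l + m + 2)) = 1 := congrArg Prod.snd hj
    have h3 := congrArg Fin.val h2
    rw [Fin.val_one] at h3
    have h4 : (j.succ.succ : Fin (l + m + 2)).val = j.val + 1 + 1 := rfl
    omega

theorem sum_prod {X : Type} [Fintype X] (n : ℕ) (h : Fin n → X → ℝ) :
    ∑ y : Fin n → X, ∏ j, h j (y j) = ∏ j, ∑ z, h j z := by
  rw [Finset.prod_univ_sum, Fintype.piFinset_univ]

theorem prod_two (l m : ℕ) (A B : ℝ) :
    ∏ j : Fin (l + m), (if j.val < l then A else B) = A ^ l * B ^ m := by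
  rw [Fin.prod_univ_add]
  congr 1
  · rw [Finset.prod_congr rfl (g := fun _ => A) (fun i _ => if_pos i.isLt)]
    rw [Finset.prod_const, Finset.card_univ, Fintype.card_fin]
  · rw [Finset.prod_congr rfl (g := fun _ => B) (fun i _ => if_neg (by show ¬ (l + i.val < l); omega))]
    rw [Finset.prod_const, Finset.card_univ, Fintype.card_fin]

theorem st : S_ST := by
  intro X _ _ W
  have hN : (Fintype.card X : ℝ) ≠ 0 := by
    exact_mod_cast Fintype.card_ne_zero
  constructor
  · intro m
    unfold tW
    simp only [prod_Star]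
    rw [sum_cons]
    have h1 : ∀ a : X, ∑ y : Fin m → X, ∏ j : Fin m, W ((Fin.cons a y : Fin (m + 1) → X) 0)
        ((Fin.cons a y : Fin (m + 1) → X) j.succ) = (∑ z : X, W a z) ^ m := by
      intro a
      rw [Fintype.sum_pow]
      rfl
    rw [Finset.sum_congr rfl (fun a _ => h1 a)]
    rw [Finset.sum_congr rfl (fun (a : X) _ => div_pow (∑ y : X, W a y) (Fintype.card X : ℝ) m)]
    rw [← Finset.sum_div, div_div, pow_succ]
  · intro l m
    unfold tW
    rw [sum_cons (l + m + 1)]
    have h1 : ∀ a : X, ∑ y : Fin (l + m + 1) → X, ∏ e ∈ Eg (DStar l m),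
        W ((Fin.cons a y : Fin (l + m + 2) → X) e.1) ((Fin.cons a y : Fin (l + m + 2) → X) e.2)
        = ∑ b : X, W a b * ((∑ z : X, W a z) ^ l * (∑ z : X, W b z) ^ m) := by
      intro a
      rw [sum_cons (l + m)]
      apply Finset.sum_congr rfl
      intro b _
      rw [Finset.sum_congr rfl (fun y _ => prod_DStar W l m a b y), ← Finset.mul_sum]
      congr 1
      rw [sum_prod (l + m) (fun j z => if j.val < l then W a z else W b z), ← prod_two]
      apply Finset.prod_congr rfl
      intro j _
      by_cases hj : j.val < l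
      · rw [if_pos hj]; exact Finset.sum_congr rfl (fun z _ => if_pos hj)
      · rw [if_neg hj]; exact Finset.sum_congr rfl (fun z _ => if_neg hj)
    rw [Finset.sum_congr rfl (fun a _ => h1 a), Finset.sum_div, Finset.sum_div]
    apply Finset.sum_congr rfl
    intro a _
    rw [Finset.sum_div, Finset.sum_div]
    apply Finset.sum_congr rfl
    intro b _
    rw [div_pow, div_pow, pow_add, pow_add]
    field_simp

end Pool.Agent.W280.GL
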